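import Pool.Agent.H95.CG.Targets

/-!
# Module PK of the board cg_modules: the packing bound
-/

set_option autoImplicit false

namespace Pool.Agent.H48.CG

open Pool.Agent.H95.CG Pool.Agent.H25.HK
open MeasureTheory Metric Module Set
open scoped ENNReal

theorem pf_pk : T_PK := by
  intro E _ _ _ s R d hd hR hs h
  borelize E
  let μ : Measure E := Measure.addHaar
  have hδ : 0 < d / 2 := by linarith
  have hρ : 0 < R + d / 2 := by linarith
  set A := ⋃ c ∈ s, ball (c : E) (d / 2) with hA
  have D : Set.Pairwise (s : Set E) (Function.onFun Disjoint fun c => ball (c : E) (d / 2)) := by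
    rintro c hc e he hce
    apply ball_disjoint_ball
    rw [dist_eq_norm]
    have := h c hc e he hce
    linarith
  have A_subset : A ⊆ ball (0 : E) (R + d / 2) := by
    refine iUnion₂_subset fun x hx => ?_
    apply ball_subset_ball'
    rw [dist_zero_right]
    linarith [hs x hx]
  have I : (s.card : ℝ≥0∞) * ENNReal.ofReal ((d / 2) ^ finrank ℝ E) * μ (ball 0 1) ≤
      ENNReal.ofReal ((R + d / 2) ^ finrank ℝ E) * μ (ball 0 1) :=
    calc
      (s.card : ℝ≥0∞) * ENNReal.ofReal ((d / 2) ^ finrank ℝ E) * μ (ball 0 1) = μ A := by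
        rw [hA, measure_biUnion_finset D fun c _ => measurableSet_ball]
        simp only [μ.addHaar_ball_of_pos _ hδ]
        simp only [Finset.sum_const, nsmul_eq_mul, mul_assoc]
      _ ≤ μ (ball (0 : E) (R + d / 2)) := measure_mono A_subset
      _ = ENNReal.ofReal ((R + d / 2) ^ finrank ℝ E) * μ (ball 0 1) := by
        simp only [μ.addHaar_ball_of_pos _ hρ]
  have J : (s.card : ℝ≥0∞) * ENNReal.ofReal ((d / 2) ^ finrank ℝ E) ≤
      ENNReal.ofReal ((R + d / 2) ^ finrank ℝ E) :=
    (ENNReal.mul_le_mul_iff_left (measure_ball_pos _ _ zero_lt_one).ne' measure_ball_lt_top.ne).1 I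
  have K : (s.card : ℝ) * (d / 2) ^ finrank ℝ E ≤ (R + d / 2) ^ finrank ℝ E := by
    have h1 := ENNReal.toReal_le_of_le_ofReal (pow_nonneg hρ.le _) J
    rw [ENNReal.toReal_mul, ENNReal.toReal_natCast,
      ENNReal.toReal_ofReal (pow_nonneg hδ.le _)] at h1
    exact h1
  have h2 : 1 + 2 * R / d = (R + d / 2) / (d / 2) := by
    field_simp
    ring
  rw [h2, div_pow, le_div_iff₀ (pow_pos hδ _)]
  exact K

end Pool.Agent.H48.CG
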